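import Pool.Agent.H482R3.EB.Stm
import Pool.Agent.H18R2.EA.PROD

set_option autoImplicit false

/-!
# PRODB: the word problem of a direct product of Artin groups
-/

namespace Pool.Agent.H18R2.EB

open Pool.Agent.H482R3.EA (W inv ev)
open Pool.Agent.H482R3.EB
open Pool.Agent.H18R2.EA (pV pW ev_hom ev_pV ev_pW ev_split ev_cons pV_prim pW_prim)

theorem alt_map {S T : Type} (f : S → T) (k : ℕ) : ∀ s t : S,
    (alt s t k).map f = alt (f s) (f t) k := by
  induction k with
  | zero => intro s t; rfl
  | succ k ih =>
    intro s t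
    show f s :: (alt t s k).map f = f s :: alt (f t) (f s) k
    rw [ih]

/-- the word in the sum alphabet -/
def rn {n a b : ℕ} (e : Fin a ⊕ Fin b ≃ Fin n) (u : W (Fin n)) : W (Fin a ⊕ Fin b) :=
  u.map fun x => (e.symm x.1, x.2)

theorem ev_rn {n a b : ℕ} {G : Type} [Group G] (e : Fin a ⊕ Fin b ≃ Fin n) (f : Fin n → G)
    (u : W (Fin n)) : ev f u = ev (fun s => f (e s)) (rn e u) := by
  induction u with
  | nil => rfl
  | cons x u ih =>
    have h : rn e (x :: u) = (e.symm x.1, x.2) :: rn e u := rfl
    rw [h, ev_cons, ev_cons, ih]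
    simp only [Equiv.apply_symm_apply]

theorem rn_prim {n a b : ℕ} (e : Fin a ⊕ Fin b ≃ Fin n) : Primrec (rn e) := by
  refine Primrec.list_map Primrec.id ?_
  exact Primrec₂.mk (((Primrec.dom_finite (fun i : Fin n => e.symm i)).comp
    (Primrec.fst.comp Primrec.snd)).pair (Primrec.snd.comp Primrec.snd))

theorem triv_iff (hL : S_LIFTR) (hR : S_RELR) {n a b : ℕ} (M : Fin n → Fin n → ℕ)
    (hs : ∀ i j, M i j = M j i) (e : Fin a ⊕ Fin b ≃ Fin n)
    (h2 : ∀ i j, M (e (.inl i)) (e (.inr j)) = 2) (u : W (Fin n)) :
    TR M u ↔ TR (fun i j : Fin a => M (e (.inl i)) (e (.inl j))) (pV (rn e u)) ∧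
      TR (fun i j : Fin b => M (e (.inr i)) (e (.inr j))) (pW (rn e u)) := by
  have h2' : ∀ i j, M (e (.inr j)) (e (.inl i)) = 2 := fun i j => by rw [hs, h2]
  have two : ∀ {G : Type} [Group G] (x y : G), (alt x y 2).prod = x * y := by
    intro G _ x y
    show ([x, y] : List G).prod = x * y
    simp
  constructor
  · intro h
    constructor
    · obtain ⟨φ, hφ, -⟩ := hL (Fin n) (AR (fun i j : Fin a => M (e (.inl i)) (e (.inl j))))
        inferInstance M (fun s => Sum.elim (gR (fun i j : Fin a => M (e (.inl i)) (e (.inl j))))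
          (fun _ => 1) (e.symm s)) (by
        intro s t hst hm
        obtain ⟨s, rfl⟩ := e.surjective s
        obtain ⟨t, rfl⟩ := e.surjective t
        rw [alt_map, alt_map]
        simp only [Equiv.symm_apply_apply]
        rcases s with s | s <;> rcases t with t | t
        · have h3 := hR.1 (Fin a) (fun i j : Fin a => M (e (.inl i)) (e (.inl j))) s t
            (fun h => hst (by rw [h])) hm
          rw [alt_map, alt_map] at h3
          exact h3
        · rw [h2, two, two]
          simp
        · rw [h2', two, two]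
          simp
        · rfl)
      have h3 := ev_hom φ (gR M) u
      rw [show ev (gR M) u = 1 from h, map_one] at h3
      have h4 : (fun s => φ (gR M s)) = _ := funext hφ
      rw [h4, ev_rn e] at h3
      simp only [Equiv.symm_apply_apply] at h3
      rw [ev_pV _ (fun w => rfl)] at h3
      exact h3.symm
    · obtain ⟨φ, hφ, -⟩ := hL (Fin n) (AR (fun i j : Fin b => M (e (.inr i)) (e (.inr j))))
        inferInstance M (fun s => Sum.elim (fun _ => 1)
          (gR (fun i j : Fin b => M (e (.inr i)) (e (.inr j)))) (e.symm s)) (by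
        intro s t hst hm
        obtain ⟨s, rfl⟩ := e.surjective s
        obtain ⟨t, rfl⟩ := e.surjective t
        rw [alt_map, alt_map]
        simp only [Equiv.symm_apply_apply]
        rcases s with s | s <;> rcases t with t | t
        · rfl
        · rw [h2, two, two]
          simp
        · rw [h2', two, two]
          simp
        · have h3 := hR.1 (Fin b) (fun i j : Fin b => M (e (.inr i)) (e (.inr j))) s t
            (fun h => hst (by rw [h])) hm
          rw [alt_map, alt_map] at h3
          exact h3)
      have h3 := ev_hom φ (gR M) u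
      rw [show ev (gR M) u = 1 from h, map_one] at h3
      have h4 : (fun s => φ (gR M s)) = _ := funext hφ
      rw [h4, ev_rn e] at h3
      simp only [Equiv.symm_apply_apply] at h3
      rw [ev_pW _ (fun w => rfl)] at h3
      exact h3.symm
  · rintro ⟨hV, hW⟩
    have hcom : ∀ v w, Commute (gR M (e (.inr w))) (gR M (e (.inl v))) := by
      intro v w
      have h3 := hR.1 (Fin n) M (e (.inl v)) (e (.inr w))
        (fun h => Sum.inl_ne_inr (e.injective h)) (by rw [h2]; decide)
      rw [alt_map, alt_map, h2, two, two] at h3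
      exact h3.symm
    obtain ⟨φ, hφ, -⟩ := hL (Fin a) (AR M) inferInstance
      (fun i j : Fin a => M (e (.inl i)) (e (.inl j))) (fun v => gR M (e (.inl v))) (by
      intro s t hst hm
      rw [alt_map, alt_map]
      have h3 := hR.1 (Fin n) M (e (.inl s)) (e (.inl t))
        (fun h => hst (Sum.inl_injective (e.injective h))) hm
      rw [alt_map, alt_map] at h3
      exact h3)
    obtain ⟨ψ, hψ, -⟩ := hL (Fin b) (AR M) inferInstance
      (fun i j : Fin b => M (e (.inr i)) (e (.inr j))) (fun v => gR M (e (.inr v))) (by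
      intro s t hst hm
      rw [alt_map, alt_map]
      have h3 := hR.1 (Fin n) M (e (.inr s)) (e (.inr t))
        (fun h => hst (Sum.inr_injective (e.injective h))) hm
      rw [alt_map, alt_map] at h3
      exact h3)
    show ev (gR M) u = 1
    rw [ev_rn e, ev_split (fun s => gR M (e s)) hcom]
    have h3 := ev_hom φ (gR _) (pV (rn e u))
    have h4 := ev_hom ψ (gR _) (pW (rn e u))
    rw [show ev (gR _) (pV (rn e u)) = 1 from hV, map_one] at h3
    rw [show ev (gR _) (pW (rn e u)) = 1 from hW, map_one] at h4
    have h5 : (fun s => φ (gR _ s)) = _ := funext hφ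
    have h6 : (fun s => ψ (gR _ s)) = _ := funext hψ
    rw [h5] at h3
    rw [h6] at h4
    rw [← h3, ← h4, mul_one]

theorem t_PRODB (hL : S_LIFTR) (hR : S_RELR) (hA : S_ARTR) : S_PRODB := by
  intro n M a b e h2 hV hW
  have hs : ∀ i j, M i j = M j i := fun i j => M.symmetric i j
  have eM := hA n M (fun i => M.diagonal i) hs
  have eV := hA a (fun i j : Fin a => M (e (.inl i)) (e (.inl j))) (fun i => M.diagonal _)
    (fun i j => hs _ _)
  have eW := hA b (fun i j : Fin b => M (e (.inr i)) (e (.inr j))) (fun i => M.diagonal _)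
    (fun i j => hs _ _)
  have hV' : ComputablePred (TR (fun i j : Fin a => M (e (.inl i)) (e (.inl j)))) :=
    ComputablePred.of_eq hV eV
  have hW' : ComputablePred (TR (fun i j : Fin b => M (e (.inr i)) (e (.inr j)))) :=
    ComputablePred.of_eq hW eW
  obtain ⟨f, hf, hf'⟩ := ComputablePred.computable_iff.1 hV'
  obtain ⟨g, hg, hg'⟩ := ComputablePred.computable_iff.1 hW'
  have hmain : ComputablePred (TR (fun i j => M i j)) := by
    rw [ComputablePred.computable_iff]
    refine ⟨fun u => f (pV (rn e u)) && g (pW (rn e u)), ?_, ?_⟩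
    · exact Primrec.and.to_comp.comp (hf.comp ((pV_prim a b).comp (rn_prim e)).to_comp)
        (hg.comp ((pW_prim a b).comp (rn_prim e)).to_comp)
    · funext u
      apply propext
      rw [triv_iff hL hR (fun i j => M i j) hs e h2 u, hf', hg']
      simp
  exact ComputablePred.of_eq hmain (fun u => (eM u).symm)

end Pool.Agent.H18R2.EB
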