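import Pool.Agent.H482R3.EB.Stm

set_option autoImplicit false

namespace Pool.Agent.H180R3.EB.ADM3

open Pool.Agent.H482R3
open Pool.Agent.H482R3.EA (W inv ev PP xx evF cond1 cond2 cV cW LIdx Syl gOf iW iV letF valS
  Sys St Near InD Adm Act)
open Pool.Agent.H482R3.EB

variable {α β γ : Type} [Primcodable α] [Primcodable β] [Primcodable γ]

theorem cp_comp {p : β → Prop} (hp : ComputablePred p) {f : α → β} (hf : Computable f) :
    ComputablePred (fun x => p (f x)) := by
  obtain ⟨d, h⟩ := hp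
  exact ⟨fun x => d (f x), h.comp hf⟩

theorem cp_const (q : Prop) : ComputablePred (fun _ : α => q) := by
  classical
  exact ⟨fun _ => Classical.propDecidable q, Computable.const _⟩

theorem cp_finite [Finite β] (p : β → Prop) : ComputablePred p := by
  classical
  exact ⟨fun x => Classical.propDecidable (p x), (Primrec.dom_finite _).to_comp⟩

theorem a3_gOf (a b : ℕ) : Computable (gOf : Option (Syl (Fin a) (Fin b)) → W (Fin b)) := by
  have h : Computable (fun s : Option (Syl (Fin a) (Fin b)) =>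
      (Option.casesOn s [] (fun x => (Sum.casesOn x (fun y => y.1)
        (fun z => (Sum.casesOn z (fun y => y.1) (fun y => y.1) : W (Fin b))) : W (Fin b))) :
        W (Fin b))) := by
    refine Computable.option_casesOn Computable.id (Computable.const []) ?_
    refine Computable.sumCasesOn (f := fun q : Option (Syl (Fin a) (Fin b)) ×
      Syl (Fin a) (Fin b) => q.2) Computable.snd ?_ ?_
    · exact (Computable.fst.comp Computable.snd : Computable fun q : (Option (Syl (Fin a) (Fin b)) ×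
        Syl (Fin a) (Fin b)) × (W (Fin b) × Fin a × Bool × ℕ) => q.2.1)
    · refine Computable.sumCasesOn (f := fun q : (Option (Syl (Fin a) (Fin b)) ×
        Syl (Fin a) (Fin b)) × ((W (Fin b) × W (Fin a)) ⊕ (W (Fin b) × Fin a × Fin b × W ℕ)) =>
        q.2) Computable.snd ?_ ?_
      · exact (Computable.fst.comp Computable.snd)
      · exact (Computable.fst.comp Computable.snd)
  refine h.of_eq fun s => ?_
  rcases s with _ | (⟨g', v', x⟩ | (⟨g', y⟩ | ⟨g', v', w', y⟩)) <;> rfl

theorem t_ADM3 (hB : S_BASB) (hP : EA.S_CP) (hN : S_NEARB) (hI : S_INDB) (hS : EA.S_BS)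
    (hD : S_NBD) (h1 : EA.S_C1) (h2 : EA.S_C2) : S_ADM3 := by
  intro a b c hX hTame hTR
  let σ : Type := Option (Syl (Fin a) (Fin b)) × (W (Fin b) × Fin a × Fin b × W ℕ)
  change ComputablePred (fun p : σ => AdmW c p.1 (.inr (.inr p.2)))
  -- projections
  have ps : Computable (fun p : σ => p.1) := Computable.fst
  have pg : Computable (fun p : σ => p.2.1) := Computable.fst.comp Computable.snd
  have pv : Computable (fun p : σ => p.2.2.1) :=
    Computable.fst.comp (Computable.snd.comp Computable.snd)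
  have pw : Computable (fun p : σ => p.2.2.2.1) :=
    Computable.fst.comp (Computable.snd.comp (Computable.snd.comp Computable.snd))
  have py : Computable (fun p : σ => p.2.2.2.2) :=
    Computable.snd.comp (Computable.snd.comp (Computable.snd.comp Computable.snd))
  have hNear := hN a b c hTR
  have hInd := (hI a b c hTR).2
  -- the bound
  let B : σ → ℕ := fun p => ((p.2.1.length + (gOf p.1).length) + 1) ^ 2
  have hBc : Computable B := by
    have e1 : Computable (fun p : σ => p.2.1.length) := Computable.list_length.comp pg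
    have e2 : Computable (fun p : σ => (gOf p.1).length) :=
      Computable.list_length.comp ((a3_gOf a b).comp ps)
    have e3 : Computable (fun p : σ => p.2.1.length + (gOf p.1).length) :=
      Primrec.nat_add.to_comp.comp e1 e2
    have e4 : Computable (fun p : σ => (p.2.1.length + (gOf p.1).length) + 1) :=
      Computable.succ.comp e3
    have e5 : Computable (fun p : σ => ((p.2.1.length + (gOf p.1).length) + 1) *
        ((p.2.1.length + (gOf p.1).length) + 1)) := Primrec.nat_mul.to_comp.comp e4 e4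
    refine e5.of_eq fun p => ?_
    simp only [B]
    ring
  -- fixed generators
  have key : ∀ (v0 : Fin a) (w0 : Fin b), ComputablePred (fun p : σ =>
      c (.inl v0) (.inr w0) ≠ 0 ∧ ¬ InDL c p.2.1 v0 w0 p.1 ∧
      (((∀ j : ℤ, ¬ NearW c (p.2.1 ++ wp w0 j) v0 p.1) ∧
        cond1 (c (.inl v0) (.inr w0)) p.2.2.2.2) ∨
       (∃ j : ℤ, NearW c (p.2.1 ++ wp w0 j) v0 p.1 ∧
        cond2 (c (.inl v0) (.inr w0)) j p.2.2.2.2))) := by
    intro v0 w0
    by_cases hc : c (.inl v0) (.inr w0) = 0
    · refine (cp_const (α := σ) False).of_eq fun p => ?_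
      constructor
      · exact False.elim
      · rintro ⟨h, -⟩
        exact h hc
    have hk2 : 2 ≤ c (.inl v0) (.inr w0) := by
      have := hX v0 w0
      omega
    -- near, with a coded exponent
    have hE1 : ComputablePred (fun q : σ × ℕ =>
        NearW c (q.1.2.1 ++ wp w0 ((q.2.unpair.1 : ℤ) - (q.2.unpair.2 : ℤ))) v0 q.1.1) := by
      have f1 : Computable (fun q : σ × ℕ =>
          wp w0 ((q.2.unpair.1 : ℤ) - (q.2.unpair.2 : ℤ))) :=
        (hB b).2.1.comp (f := fun p : Fin b × (ℕ × ℕ) => wp p.1 ((p.2.1 : ℤ) - (p.2.2 : ℤ)))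
          (g := fun q : σ × ℕ => (w0, q.2.unpair))
          ((Computable.const w0).pair (Computable.unpair.comp Computable.snd))
      have f2 : Computable (fun q : σ × ℕ =>
          q.1.2.1 ++ wp w0 ((q.2.unpair.1 : ℤ) - (q.2.unpair.2 : ℤ))) :=
        Computable.list_append.comp (pg.comp Computable.fst) f1
      exact cp_comp (f := fun q : σ × ℕ =>
        ((q.1.2.1 ++ wp w0 ((q.2.unpair.1 : ℤ) - (q.2.unpair.2 : ℤ)), v0), q.1.1)) hNear
        ((f2.pair (Computable.const v0)).pair (ps.comp Computable.fst))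
    have hE2 : ComputablePred (fun q : σ × ℕ => cond2 (c (.inl v0) (.inr w0))
        ((q.2.unpair.1 : ℤ) - (q.2.unpair.2 : ℤ)) q.1.2.2.2.2) :=
      cp_comp (f := fun q : σ × ℕ => (q.2.unpair, q.1.2.2.2.2)) (h2 _ hk2)
        ((Computable.unpair.comp Computable.snd).pair (py.comp Computable.fst))
    have hS1 := hS σ inferInstance _ B hE1 hBc
    have hS2 := hS σ inferInstance _ B ((hP (σ × ℕ) inferInstance 0).1 _ _ hE1 hE2) hBc
    have hL : ComputablePred (fun p : σ => ¬ InDL c p.2.1 v0 w0 p.1) := by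
      refine ComputablePred.not ?_
      exact cp_comp (f := fun p : σ => ((p.2.1, v0, w0), p.1)) hInd
        ((pg.pair ((Computable.const v0).pair (Computable.const w0))).pair ps)
    have hC1 : ComputablePred (fun p : σ => cond1 (c (.inl v0) (.inr w0)) p.2.2.2.2) :=
      cp_comp (f := fun p : σ => p.2.2.2.2) (h1 _ hk2) py
    have hall := (hP σ inferInstance 0).1 _ _ hL ((hP σ inferInstance 0).2.1 _ _
      ((hP σ inferInstance 0).1 _ _ (ComputablePred.not hS1) hC1) hS2)
    refine hall.of_eq fun p => ?_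
    have hex : ∀ Q : ℤ → Prop, ¬ InDL c p.2.1 v0 w0 p.1 →
        ((∃ j : ℤ, NearW c (p.2.1 ++ wp w0 j) v0 p.1 ∧ Q j) ↔
        ∃ n, n ≤ B p ∧ (NearW c (p.2.1 ++ wp w0 ((n.unpair.1 : ℤ) - (n.unpair.2 : ℤ))) v0 p.1 ∧
          Q ((n.unpair.1 : ℤ) - (n.unpair.2 : ℤ)))) := by
      intro Q hnd
      constructor
      · rintro ⟨j, hj, hQ⟩
        have hbd := hD (Fin a) (Fin b) c hTame p.2.1 v0 w0 j p.1 hnd hc hj
        have hjj : ((j.toNat : ℕ) : ℤ) - (((-j).toNat : ℕ) : ℤ) = j := by omega
        refine ⟨Nat.pair j.toNat (-j).toNat, ?_, ?_⟩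
        · have g1 := Nat.pair_lt_max_add_one_sq j.toNat (-j).toNat
          have g2 : max j.toNat (-j).toNat ≤ p.2.1.length + (gOf p.1).length := by
            have := abs_le.1 hbd
            push_cast at this
            omega
          refine g1.le.trans ?_
          exact Nat.pow_le_pow_left (by omega) 2
        · rw [Nat.unpair_pair, hjj]
          exact ⟨hj, hQ⟩
      · rintro ⟨n, -, hn, hQ⟩
        exact ⟨_, hn, hQ⟩
    constructor
    · rintro ⟨hnd, hrest⟩
      refine ⟨hc, hnd, ?_⟩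
      rcases hrest with ⟨hA, hC⟩ | hE
      · left
        refine ⟨fun j hj => hA ?_, hC⟩
        obtain ⟨n, hn1, hn2, -⟩ := (hex (fun _ => True) hnd).1 ⟨j, hj, trivial⟩
        exact ⟨n, hn1, hn2⟩
      · right
        obtain ⟨n, hn1, hn2⟩ := hE
        exact (hex (fun j => cond2 (c (.inl v0) (.inr w0)) j p.2.2.2.2) hnd).2 ⟨n, hn1, hn2⟩
    · rintro ⟨-, hnd, hrest⟩
      refine ⟨hnd, ?_⟩
      rcases hrest with ⟨hA, hC⟩ | hE
      · left
        refine ⟨?_, hC⟩
        rintro ⟨n, -, hn⟩
        exact hA _ hn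
      · right
        exact (hex (fun j => cond2 (c (.inl v0) (.inr w0)) j p.2.2.2.2) hnd).1 hE
  -- splitting
  have hfin : ComputablePred (fun p : σ => ∃ v0 : Fin a, ∃ w0 : Fin b,
      (p.2.2.1 = v0 ∧ p.2.2.2.1 = w0) ∧ (c (.inl v0) (.inr w0) ≠ 0 ∧ ¬ InDL c p.2.1 v0 w0 p.1 ∧
      (((∀ j : ℤ, ¬ NearW c (p.2.1 ++ wp w0 j) v0 p.1) ∧
        cond1 (c (.inl v0) (.inr w0)) p.2.2.2.2) ∨
       (∃ j : ℤ, NearW c (p.2.1 ++ wp w0 j) v0 p.1 ∧
        cond2 (c (.inl v0) (.inr w0)) j p.2.2.2.2)))) := by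
    refine (hP σ inferInstance a).2.2.2 _ fun v0 => ?_
    refine (hP σ inferInstance b).2.2.2 _ fun w0 => ?_
    refine (hP σ inferInstance 0).1 _ _ ?_ (key v0 w0)
    exact cp_comp (p := fun y : Fin a × Fin b => y.1 = v0 ∧ y.2 = w0) (cp_finite _) (pv.pair pw)
  refine hfin.of_eq fun p => ?_
  obtain ⟨s, g, v, w, y⟩ := p
  constructor
  · rintro ⟨v0, w0, ⟨rfl, rfl⟩, h⟩
    exact h
  · intro h
    exact ⟨v, w, ⟨rfl, rfl⟩, h⟩

end Pool.Agent.H180R3.EB.ADM3
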