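import Pool.Agent.H482R3.EB.Cen

set_option autoImplicit false

namespace Pool.Agent.H963R.CEN

open Pool.Agent.H482R3.EB
open scoped Pointwise

/-- finitely many cosets of cyclic groups do not cover -/
theorem av2_core {S : Type} (m : S → S → ℕ)
    (hT : ∀ (s t : S) (a b : ℤ), s ≠ t → gR m s ^ a * gR m t ^ b = 1 → a = 0 ∧ b = 0)
    (s0 s1 : S) (hne : s0 ≠ s1) (L : List (AR m × S)) :
    ∃ h : AR m, ∀ p ∈ L, ∀ k : ℤ, h ≠ p.1 * gR m p.2 ^ k := by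
  classical
  by_contra hcon
  push Not at hcon
  have hcov : ⋃ i ∈ L.toFinset, (i.1) • ((Subgroup.zpowers (gR m i.2) : Subgroup (AR m)) : Set (AR m)) =
      Set.univ := by
    rw [Set.eq_univ_iff_forall]
    intro h
    obtain ⟨p, hp, k, hk⟩ := hcon h
    rw [Set.mem_iUnion₂]
    refine ⟨p, List.mem_toFinset.2 hp, ?_⟩
    rw [hk]
    refine ⟨gR m p.2 ^ k, Subgroup.zpow_mem_zpowers _ _, rfl⟩
  obtain ⟨p, _, hfin⟩ := Subgroup.exists_finiteIndex_of_leftCoset_cover hcov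
  obtain ⟨s, hs⟩ : ∃ s : S, s ≠ p.2 := by
    by_cases h : s0 = p.2
    · exact ⟨s1, fun h' => hne (h.trans h'.symm)⟩
    · exact ⟨s0, h⟩
  obtain ⟨n, hn, _, hmem⟩ := Subgroup.exists_pow_mem_of_index_ne_zero hfin.index_ne_zero (gR m s)
  obtain ⟨j, hj⟩ := Subgroup.mem_zpowers_iff.1 hmem
  have h1 : gR m s ^ (n : ℤ) * gR m p.2 ^ (-j) = 1 := by
    rw [zpow_neg, hj, zpow_natCast, mul_inv_cancel]
  have h2 := (hT s p.2 n (-j) hs h1).1
  omega

theorem t_AV2 : S_AV2 := by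
  intro S m hT ⟨s0, s1, hne⟩ L
  exact av2_core m hT.i2 s0 s1 hne L

end Pool.Agent.H963R.CEN
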