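import Pool.Agent.H482R3.EB.TAME
import Pool.Agent.H482R3.EB.SUR
import Pool.Agent.H482R3.EB.Cen

set_option autoImplicit false

namespace Pool.Agent.H482R3.EC.AV3

open Pool.Agent.H482R3.EB
open Pool.Agent.H482R3.EA (W inv ev)
open Pool.Agent.H482R3.EB.COCaux

/-- bound for the second coordinate -/
theorem snd_bound {S H : Type} [Group H] (m : S → S → ℕ) (f : S → H)
    (φ : AR m →* Equiv.Perm (H × ℤ)) (hφ : ∀ s, φ (gR m s) = th f s) (w : W S) :
    ∀ (k : H) (n : ℤ), |(φ (ev (gR m) w) (k, n)).2 - n| ≤ (w.length : ℤ) := by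
  classical
  intro k n
  induction w with
  | nil =>
    have e : ev (gR m) ([] : W S) = 1 := rfl
    rw [e, map_one]
    simp
  | cons x w ih =>
    have e : ev (gR m) (x :: w) =
      (if x.2 then gR m x.1 else (gR m x.1)⁻¹) * ev (gR m) w := rfl
    rw [e, map_mul, Equiv.Perm.mul_apply]
    generalize φ (ev (gR m) w) (k, n) = P at *
    obtain ⟨p, q⟩ := P
    simp only at ih
    have hd : |dl p (f x.1)| ≤ 1 := by
      unfold dl
      split_ifs <;> simp
    rw [List.length_cons]
    push_cast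
    rcases x with ⟨x, _ | _⟩
    · simp only [Bool.false_eq_true, if_false, map_inv, hφ]
      rw [th_inv_apply]
      simp only at hd ⊢
      rw [abs_le] at *
      constructor <;> linarith [hd.1, hd.2, ih.1, ih.2]
    · simp only [if_true, hφ]
      rw [th_apply]
      simp only at hd ⊢
      rw [abs_le] at *
      constructor <;> linarith [hd.1, hd.2, ih.1, ih.2]

theorem t_AV3 : S_AV3 := by
  classical
  intro S m hs h1 ⟨s, t, u, hst, htu, hsu⟩ L
  obtain ⟨H, _, f, hf2, hfb, hinj⟩ := t_GEO S m hs h1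
  obtain ⟨φ, hφ⟩ := exists_theta m f hf2 hfb
  have hpow : ∀ s (a : ℤ) (h : H) (n : ℤ), φ (gR m s ^ a) (h, n) =
      (f s ^ a * h * (f s ^ a)⁻¹, n + if h = f s then a else 0) := by
    intro s a h n
    rw [map_zpow, hφ, th_zpow]
  -- a bound for all elements of the list
  have hbd : ∃ C : ℤ, 0 ≤ C ∧ ∀ p ∈ L, ∀ (k : H) (n : ℤ), |(φ p.1 (k, n)).2 - n| ≤ C := by
    induction L with
    | nil => exact ⟨0, le_refl _, by simp⟩
    | cons p L ih =>
      obtain ⟨C, hC0, hC⟩ := ih
      obtain ⟨w, hw⟩ := t_SUR S m p.1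
      refine ⟨C + w.length, by positivity, ?_⟩
      intro p' hp' k n
      rcases List.mem_cons.1 hp' with rfl | hp'
      · have := snd_bound m f φ hφ w k n
        rw [hw] at this
        linarith
      · have := hC p' hp' k n
        have h0 : (0 : ℤ) ≤ (w.length : ℤ) := by positivity
        linarith
  obtain ⟨C, hC0, hC⟩ := hbd
  -- the element
  have heven : ∀ (r : S) (N : ℤ), f r ^ (2 * N) = 1 := by
    intro r N
    have : f r ^ (2 : ℤ) = 1 := by
      rw [zpow_two]; exact hf2 r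
    rw [zpow_mul, this, one_zpow]
  have hev : ∀ (r : S) (N : ℤ) (k : H) (n : ℤ), φ (gR m r ^ (2 * N)) (k, n) =
      (k, n + if k = f r then 2 * N else 0) := by
    intro r N k n
    rw [hpow, heven]
    simp
  refine ⟨gR m s ^ (2 * (C + 1)) * gR m t ^ (2 * (C + 1)) * gR m u ^ (2 * (C + 1)), ?_⟩
  rintro ⟨g, w, w'⟩ hp a b he
  simp only at he
  have hb := hC _ hp
  simp only at hb
  have hval : ∀ k : H, (φ (gR m s ^ (2 * (C + 1)) * gR m t ^ (2 * (C + 1)) *
      gR m u ^ (2 * (C + 1))) (k, 0)).2 =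
      (if k = f u then 2 * (C + 1) else 0) + (if k = f t then 2 * (C + 1) else 0) +
        (if k = f s then 2 * (C + 1) else 0) := by
    intro k
    rw [map_mul, map_mul, Equiv.Perm.mul_apply, Equiv.Perm.mul_apply, hev, hev, hev]
    ring
  -- the right hand side vanishes outside two places
  have hrhs : ∀ k : H, k ≠ f w' → k ≠ (f w' ^ b)⁻¹ * f w * f w' ^ b →
      |(φ (g * gR m w ^ a * gR m w' ^ b) (k, 0)).2| ≤ C := by
    intro k k1 k2
    rw [map_mul, map_mul, Equiv.Perm.mul_apply, Equiv.Perm.mul_apply, hpow w' b, if_neg k1,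
      hpow w a, if_neg (by
        intro h4
        apply k2
        have h5 : k = (f w' ^ b)⁻¹ * (f w' ^ b * k * (f w' ^ b)⁻¹) * f w' ^ b := by group
        rw [h4] at h5
        exact h5)]
    have := hb (f w ^ a * (f w' ^ b * k * (f w' ^ b)⁻¹) * (f w ^ a)⁻¹) (0 + 0 + 0)
    simpa using this
  have hft : f s ≠ f t := fun h => hst (hinj h)
  have hfu : f t ≠ f u := fun h => htu (hinj h)
  have hfs : f s ≠ f u := fun h => hsu (hinj h)
  have key : ∀ r : S, (r = s ∨ r = t ∨ r = u) →
      ¬ |(φ (gR m s ^ (2 * (C + 1)) * gR m t ^ (2 * (C + 1)) *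
      gR m u ^ (2 * (C + 1))) (f r, 0)).2| ≤ C := by
    intro r hr
    rw [hval]
    rcases hr with rfl | rfl | rfl
    · rw [if_neg hfs, if_neg hft, if_pos rfl, abs_le]
      rintro ⟨-, h⟩
      linarith
    · rw [if_neg hfu, if_pos rfl, if_neg hft.symm, abs_le]
      rintro ⟨-, h⟩
      linarith
    · rw [if_pos rfl, if_neg hfu.symm, if_neg hfs.symm, abs_le]
      rintro ⟨-, h⟩
      linarith
  rw [he] at key
  have key2 : ∀ r : S, (r = s ∨ r = t ∨ r = u) →
      f r = f w' ∨ f r = (f w' ^ b)⁻¹ * f w * f w' ^ b := by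
    intro r hr
    by_contra hcon
    rw [not_or] at hcon
    exact key r hr (hrhs _ hcon.1 hcon.2)
  have a1 := key2 s (Or.inl rfl)
  have a2 := key2 t (Or.inr (Or.inl rfl))
  have a3 := key2 u (Or.inr (Or.inr rfl))
  rcases a1 with a1 | a1 <;> rcases a2 with a2 | a2 <;> rcases a3 with a3 | a3
  · exact hft (a1.trans a2.symm)
  · exact hft (a1.trans a2.symm)
  · exact hfs (a1.trans a3.symm)
  · exact hfu (a2.trans a3.symm)
  · exact hfu (a2.trans a3.symm)
  · exact hfs (a1.trans a3.symm)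
  · exact hft (a1.trans a2.symm)
  · exact hft (a1.trans a2.symm)

end Pool.Agent.H482R3.EC.AV3
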