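import Pool.Agent.H482R3.EB.Cen

set_option autoImplicit false

/-! Project EB, part CEN, task CENZ, backup version (helper311): trivial centre of the joined group. -/

namespace Pool.Agent.H311R6.EB

open Pool.Agent.H482R3.EA (W inv ev PP xx evF cond1 cond2 cV cW LIdx Syl gOf iW iV letF valS
  Sys St Near InD Adm Act)
open Pool.Agent.H482R3.EB

theorem t_CENZ (hN : S_ACT2) (hF : S_PHI) (hI : S_INJ) : S_CENZ := by
  intro V Wt hV c hcr h hcho z hz
  obtain ⟨v0⟩ := hV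
  obtain ⟨A⟩ := hN (sysB c h)
  obtain ⟨F⟩ := hF V Wt c
  have hX : ∀ (l : (sysB c h).Ln) (p : (sysB c h).P), (sysB c h).I p l →
      F.φ l ((sysB c h).x l p) =
        F.ι (p : PB c).1 * gJ c (.inl (p : PB c).2) * (F.ι (p : PB c).1)⁻¹ :=
    fun l p hp => F.hx l p hp
  obtain ⟨v, hv1, hv2⟩ := A.val (AJ c) F.φ
    (fun p : PB c => F.ι p.1 * gJ c (.inl p.2) * (F.ι p.1)⁻¹) hX
  obtain ⟨hinj, hsurj⟩ := hI V Wt c hcr h A.toAct F v hv1 hv2
  obtain ⟨ω, g, hzg⟩ := hsurj z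
  have hcomm : ∀ (x : AR (cW c)) (u : V),
      v ω * (F.ι (g * x) * gJ c (.inl u) * (F.ι (g * x))⁻¹) =
        (F.ι x * gJ c (.inl u) * (F.ι x)⁻¹) * v ω := by
    intro x u
    have h1 := hz (F.ι x * gJ c (.inl u) * (F.ι x)⁻¹)
    rw [hzg] at h1
    have h2 : v ω * (F.ι (g * x) * gJ c (.inl u) * (F.ι (g * x))⁻¹) * F.ι g =
        (F.ι x * gJ c (.inl u) * (F.ι x)⁻¹) * v ω * F.ι g := by
      rw [mul_assoc (F.ι x * gJ c (.inl u) * (F.ι x)⁻¹) (v ω) (F.ι g), ← h1, map_mul]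
      group
    exact mul_right_cancel h2
  by_cases hω : ω = A.one
  · have h1 := hcomm 1 v0
    rw [mul_one, hω, hv1, one_mul, mul_one] at h1
    have h2 : v (A.act A.one (Sum.inl g : LnB c) (gR (cV c) v0 : AR (cV c))) =
        v (A.act A.one (Sum.inl 1 : LnB c) (gR (cV c) v0 : AR (cV c))) := by
      rw [hv2, hv2, hv1, one_mul, one_mul]
      have e1 : F.φ (Sum.inl g) (gR (cV c) v0 : AR (cV c)) =
        F.ι g * gJ c (.inl v0) * (F.ι g)⁻¹ := F.hB g v0
      have e2 : F.φ (Sum.inl 1) (gR (cV c) v0 : AR (cV c)) =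
        F.ι 1 * gJ c (.inl v0) * (F.ι 1)⁻¹ := F.hB 1 v0
      exact e1.trans (h1.trans e2.symm)
    have h3 := hinj h2
    have hst : ∀ k : AR (cW c),
        A.st (A.act A.one (Sum.inl k : LnB c) (gR (cV c) v0 : AR (cV c))) =
          .pt ((k, v0) : PB c) := by
      intro k
      have h4 := A.st_pt A.one (Sum.inl k : LnB c) ((k, v0) : PB c) 1 rfl one_ne_zero
        (by rw [A.st_one]; exact fun hn => hn)
      rw [zpow_one] at h4
      exact h4
    have h5 := congrArg A.st h3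
    rw [hst g, hst 1] at h5
    have h6 : ((g, v0) : PB c) = ((1, v0) : PB c) := by
      injection h5
    have h7 : g = 1 := congrArg Prod.fst h6
    rw [hzg, hω, hv1, h7, map_one, mul_one]
  · exfalso
    obtain ⟨x, u, hfar, hnear⟩ := hcho (A.fst ω) (A.st ω) g
    obtain ⟨ω', hfst, hpre⟩ := A.pre ω ((x, u) : PB c) hω hfar
    have h1 := hpre (AJ c) F.φ
      (fun p : PB c => F.ι p.1 * gJ c (.inl p.2) * (F.ι p.1)⁻¹) hX v hv1 hv2
    have h2 : v (A.act ω (Sum.inl (g * x) : LnB c) (gR (cV c) u : AR (cV c))) = v ω' := by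
      rw [hv2, h1]
      have e1 : F.φ (Sum.inl (g * x)) (gR (cV c) u : AR (cV c)) =
        F.ι (g * x) * gJ c (.inl u) * (F.ι (g * x))⁻¹ := F.hB (g * x) u
      exact (congrArg (fun t => v ω * t) e1).trans (hcomm x u)
    have h3 := hinj h2
    have h4 := A.fst_pt ω (Sum.inl (g * x) : LnB c) ((g * x, u) : PB c) 1 rfl one_ne_zero
      hnear hω
    rw [zpow_one] at h4
    have h5 : A.fst ω = .pt ((x, u) : PB c) := by
      rw [← h4, ← hfst, ← h3]
      rfl
    rw [h5] at hfar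
    exact hfar ⟨(Sum.inl x : LnB c), rfl, rfl⟩

end Pool.Agent.H311R6.EB
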