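import Pool.Agent.H482R3.EB.Cen

set_option autoImplicit false

/-! Project EB, part CEN, task CHO2 (helper311): choice of a far point. -/

namespace Pool.Agent.H311R6.EB

open Pool.Agent.H482R3.EA (W inv ev PP xx evF cond1 cond2 cV cW LIdx Syl gOf iW iV letF valS
  Sys St Near InD Adm Act)
open Pool.Agent.H482R3.EB

variable {V Wt : Type} {c : V ⊕ Wt → V ⊕ Wt → ℕ}

theorem mk_coset {w : Wt} {a b : AR (cW c)}
    (h : (QuotientGroup.mk a : AR (cW c) ⧸ Subgroup.zpowers (gR (cW c) w)) =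
      QuotientGroup.mk b) : ∃ n : ℤ, b = a * gR (cW c) w ^ n := by
  rw [QuotientGroup.eq] at h
  obtain ⟨n, hn⟩ := Subgroup.mem_zpowers_iff.mp h
  exact ⟨n, by rw [hn, mul_inv_cancel_left]⟩

theorem col (w0 : Wt) {p q : PB c} (h : ∃ m : LnB c, IB c p m ∧ IB c q m) :
    ∃ (w : Wt) (a : ℤ), p.1 = q.1 * gR (cW c) w ^ a := by
  obtain ⟨m, h1, h2⟩ := h
  rcases m with g1 | q1
  · have e1 : p.1 = g1 := h1
    have e2 : q.1 = g1 := h2
    exact ⟨w0, 0, by rw [zpow_zero, mul_one, e1, e2]⟩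
  · obtain ⟨-, e1⟩ := h1
    obtain ⟨-, e2⟩ := h2
    obtain ⟨n, hn⟩ := mk_coset (e2.trans e1.symm)
    exact ⟨_, n, hn⟩

theorem t_CHO2 : S_CHO2 := by
  intro V Wt hfin c h hv hW hav s s' g
  classical
  haveI := Fintype.ofFinite Wt
  obtain ⟨w0⟩ := hW
  obtain ⟨v0, v1, hne⟩ := hv
  have hbad : ∀ (y x : AR (cW c)),
      (∀ t ∈ (Finset.univ : Finset Wt).toList.map (fun w => (y, w)), ∀ a : ℤ,
        x ≠ t.1 * gR (cW c) t.2 ^ a) →
      ∀ (w : Wt) (a : ℤ), x ≠ y * gR (cW c) w ^ a := by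
    intro y x hx w a
    exact hx (y, w) (List.mem_map.mpr ⟨w, by simp, rfl⟩) a
  have hfar : ∃ (v : V) (L : List (AR (cW c) × Wt)), ∀ x : AR (cW c),
      (∀ t ∈ L, ∀ a : ℤ, x ≠ t.1 * gR (cW c) t.2 ^ a) →
      Far (sysB c h) ((x, v) : PB c) s := by
    rcases s with _ | l | r
    · exact ⟨v0, [], fun x _ => trivial⟩
    · rcases (l : LnB c) with g1 | q1
      · refine ⟨v0, (Finset.univ : Finset Wt).toList.map (fun w => (g1, w)), fun x hx => ?_⟩
        intro q hq hn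
        obtain ⟨m, h1, h2⟩ := hn
        obtain ⟨w, a, hwa⟩ := col (c := c) (p := (x, v0)) (q := q) w0 ⟨m, h1, h2⟩
        have e2 : q.1 = g1 := hq
        rw [e2] at hwa
        exact hbad g1 x hx w a hwa
      · obtain ⟨v, hv⟩ : ∃ v : V, v ≠ q1.1.1.1 := by
          by_cases hh : v0 = q1.1.1.1
          · exact ⟨v1, fun h' => hne (hh.trans h'.symm)⟩
          · exact ⟨v0, hh⟩
        refine ⟨v, [((q1.2.out : AR (cW c)), q1.1.1.2)], fun x hx => ?_⟩
        intro q hq hn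
        obtain ⟨m, h1, h2⟩ := hn
        have hq1 : q.2 = q1.1.1.1 := hq.1
        have hq2 : (QuotientGroup.mk q.1 : AR (cW c) ⧸ Subgroup.zpowers (gR (cW c) q1.1.1.2))
          = q1.2 := hq.2
        rcases (m : LnB c) with g1 | q2
        · have e1 : x = g1 := h1
          have e2 : q.1 = g1 := h2
          rw [e2, ← e1] at hq2
          have h3 : (QuotientGroup.mk (q1.2.out : AR (cW c)) :
            AR (cW c) ⧸ Subgroup.zpowers (gR (cW c) q1.1.1.2)) = QuotientGroup.mk x := by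
            rw [hq2]
            exact Quotient.out_eq' q1.2
          obtain ⟨n, hn⟩ := mk_coset h3
          exact hx _ (List.mem_singleton.mpr rfl) n hn
        · have e1 : v = q2.1.1.1 := h1.1
          have e2 : q.2 = q2.1.1.1 := h2.1
          exact hv (e1.trans (e2.symm.trans hq1))
    · refine ⟨v0, (Finset.univ : Finset Wt).toList.map (fun w => ((r : PB c).1, w)),
        fun x hx => ?_⟩
      intro hn
      obtain ⟨m, h1, h2⟩ := hn
      obtain ⟨w, a, hwa⟩ := col (c := c) (p := (x, v0)) (q := r) w0 ⟨m, h1, h2⟩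
      exact hbad _ x hx w a hwa
  obtain ⟨v, L, hL⟩ := hfar
  have hnear : ∃ (L' : List (AR (cW c) × Wt)), ∀ x : AR (cW c),
      (∀ t ∈ L', ∀ a : ℤ, x ≠ t.1 * gR (cW c) t.2 ^ a) →
      ¬ Near (sysB c h) ((g * x, v) : PB c) s' := by
    rcases s' with _ | l | r
    · exact ⟨[], fun x _ hn => hn⟩
    · rcases (l : LnB c) with g1 | q1
      · refine ⟨[(g⁻¹ * g1, w0)], fun x hx hn => ?_⟩
        have e1 : g * x = g1 := hn
        refine hx _ (List.mem_singleton.mpr rfl) 0 ?_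
        show x = g⁻¹ * g1 * gR (cW c) w0 ^ (0 : ℤ)
        rw [zpow_zero, mul_one, ← e1, inv_mul_cancel_left]
      · refine ⟨[(g⁻¹ * (q1.2.out : AR (cW c)), q1.1.1.2)], fun x hx hn => ?_⟩
        have e1 : (QuotientGroup.mk (g * x) : AR (cW c) ⧸ Subgroup.zpowers (gR (cW c) q1.1.1.2))
          = q1.2 := hn.2
        have h3 : (QuotientGroup.mk (q1.2.out : AR (cW c)) :
            AR (cW c) ⧸ Subgroup.zpowers (gR (cW c) q1.1.1.2)) = QuotientGroup.mk (g * x) := by
          rw [e1]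
          exact Quotient.out_eq' q1.2
        obtain ⟨n, hn⟩ := mk_coset h3
        refine hx _ (List.mem_singleton.mpr rfl) n ?_
        show x = g⁻¹ * (q1.2.out : AR (cW c)) * gR (cW c) q1.1.1.2 ^ n
        rw [mul_assoc, ← hn, inv_mul_cancel_left]
    · refine ⟨(Finset.univ : Finset Wt).toList.map (fun w => (g⁻¹ * (r : PB c).1, w)),
        fun x hx hn => ?_⟩
      obtain ⟨m, h1, h2⟩ := hn
      obtain ⟨w, a, hwa⟩ := col (c := c) (p := (g * x, v)) (q := r) w0 ⟨m, h2, h1⟩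
      refine hbad _ x hx w a ?_
      have e1 : g * x = (r : PB c).1 * gR (cW c) w ^ a := hwa
      rw [mul_assoc, ← e1, inv_mul_cancel_left]
  obtain ⟨L', hL'⟩ := hnear
  obtain ⟨x, hx⟩ := hav (L ++ L')
  exact ⟨x, v, hL x fun t ht a => hx t (List.mem_append_left _ ht) a,
    hL' x fun t ht a => hx t (List.mem_append_right _ ht) a⟩

end Pool.Agent.H311R6.EB
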