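import Pool.Agent.H482R3.EB.Cen

set_option autoImplicit false

/-! Project EB, task CHO3: choice of a far point (three generators in `W`). -/

namespace Pool.Agent.H617R.EB

open Pool.Agent.H482R3.EB
open Pool.Agent.H482R3.EA (W inv ev PP xx evF cond1 cond2 cV cW LIdx Syl gOf iW iV letF valS
  Sys St Near InD Adm Act)

section

variable {V Wt : Type} (c : V ⊕ Wt → V ⊕ Wt → ℕ)

/-- equal cosets -/
private theorem CHO3_coset (w : Wt) (x y : AR (cW c))
    (e : (QuotientGroup.mk x : AR (cW c) ⧸ Subgroup.zpowers (gR (cW c) w)) = QuotientGroup.mk y) :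
    ∃ a : ℤ, x = y * gR (cW c) w ^ a := by
  have h1 := QuotientGroup.eq.mp e.symm
  obtain ⟨a, ha⟩ := Subgroup.mem_zpowers_iff.mp h1
  exact ⟨a, by rw [ha, mul_inv_cancel_left]⟩

/-- points on a line -/
private theorem CHO3_line (hW : Nonempty Wt) (l : LnB c) :
    ∃ y : AR (cW c), ∀ p : PB c, IB c p l → ∃ (w : Wt) (a : ℤ), p.1 = y * gR (cW c) w ^ a := by
  rcases l with g1 | q
  · refine ⟨g1, ?_⟩
    intro p hp
    have hp' : p.1 = g1 := hp
    exact ⟨hW.some, 0, by rw [hp', zpow_zero, mul_one]⟩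
  · refine ⟨(q.2.out : AR (cW c)), ?_⟩
    intro p hp
    have hp' : p.2 = q.1.1.1 ∧
      (QuotientGroup.mk p.1 : AR (cW c) ⧸ Subgroup.zpowers (gR (cW c) q.1.1.2)) = q.2 := hp
    refine ⟨q.1.1.2, ?_⟩
    apply CHO3_coset
    rw [hp'.2]
    exact (QuotientGroup.out_eq' _).symm

/-- collinear points -/
private theorem CHO3_col (hW : Nonempty Wt) (p r : PB c) (m : LnB c) (h1 : IB c r m)
    (h2 : IB c p m) : ∃ (w : Wt) (a : ℤ), p.1 = r.1 * gR (cW c) w ^ a := by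
  rcases m with g1 | q
  · have h1' : r.1 = g1 := h1
    have h2' : p.1 = g1 := h2
    exact ⟨hW.some, 0, by rw [h1', h2', zpow_zero, mul_one]⟩
  · have h1' : r.2 = q.1.1.1 ∧
      (QuotientGroup.mk r.1 : AR (cW c) ⧸ Subgroup.zpowers (gR (cW c) q.1.1.2)) = q.2 := h1
    have h2' : p.2 = q.1.1.1 ∧
      (QuotientGroup.mk p.1 : AR (cW c) ⧸ Subgroup.zpowers (gR (cW c) q.1.1.2)) = q.2 := h2
    refine ⟨q.1.1.2, ?_⟩
    apply CHO3_coset
    rw [h1'.2, h2'.2]

private theorem CHO3_near (hW : Nonempty Wt) (h : SysOK c) (s : St (sysB c h)) :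
    ∃ y : AR (cW c), ∀ p : PB c, Near (sysB c h) p s →
      ∃ (w : Wt) (a : ℤ), p.1 = y * gR (cW c) w ^ a := by
  cases s with
  | none => exact ⟨1, fun p hp => hp.elim⟩
  | ln l =>
    obtain ⟨y, hy⟩ := CHO3_line c hW l
    exact ⟨y, fun p hp => hy p hp⟩
  | pt r =>
    refine ⟨(show PB c from r).1, fun p hp => ?_⟩
    obtain ⟨m, h1, h2⟩ := hp
    exact CHO3_col c hW p r m h1 h2

private theorem CHO3_far (hW : Nonempty Wt) (h : SysOK c) (s : St (sysB c h)) :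
    ∃ y : AR (cW c), ∀ p : PB c, ¬ Far (sysB c h) p s →
      ∃ (w w' : Wt) (a b : ℤ), p.1 = y * gR (cW c) w ^ a * gR (cW c) w' ^ b := by
  cases s with
  | none => exact ⟨1, fun p hp => (hp trivial).elim⟩
  | ln l =>
    obtain ⟨y, hy⟩ := CHO3_line c hW l
    refine ⟨y, fun p hp => ?_⟩
    have hp' : ¬ ∀ q : PB c, IB c q l → ¬ Near (sysB c h) q (.pt p) := hp
    push Not at hp'
    obtain ⟨q, hq, m, h1, h2⟩ := hp'
    obtain ⟨w, a, ha⟩ := hy q hq
    obtain ⟨w', b, hb⟩ := CHO3_col c hW p q m h2 h1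
    exact ⟨w, w', a, b, by rw [hb, ha]⟩
  | pt r =>
    refine ⟨(show PB c from r).1, fun p hp => ?_⟩
    have hp' : Near (sysB c h) r (.pt p) := not_not.mp hp
    obtain ⟨m, h1, h2⟩ := hp'
    obtain ⟨w, a, ha⟩ := CHO3_col c hW p r m h2 h1
    exact ⟨w, w, a, 0, by rw [ha, zpow_zero, mul_one]⟩

end

theorem t_CHO3 : S_CHO3 := by
  intro V Wt hV hW hF c h hAv s s' g
  classical
  have : Fintype Wt := Fintype.ofFinite Wt
  obtain ⟨y, hy⟩ := CHO3_far c hW h s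
  obtain ⟨y', hy'⟩ := CHO3_near c hW h s'
  obtain ⟨x, hx⟩ := hAv ((Finset.univ : Finset (Wt × Wt)).toList.flatMap
    (fun p => [(y, p.1, p.2), (g⁻¹ * y', p.1, p.2)]))
  refine ⟨x, hV.some, ?_, ?_⟩
  · by_contra hc
    obtain ⟨w, w', a, b, hab⟩ := hy _ hc
    refine hx (y, w, w') ?_ a b hab
    rw [List.mem_flatMap]
    exact ⟨(w, w'), by simp, by simp⟩
  · intro hc
    obtain ⟨w, a, ha⟩ := hy' _ hc
    refine hx (g⁻¹ * y', w, w) ?_ a 0 ?_
    · rw [List.mem_flatMap]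
      exact ⟨(w, w), by simp, by simp⟩
    · have ha' : g * x = y' * gR (cW c) w ^ a := ha
      show x = g⁻¹ * y' * gR (cW c) w ^ a * gR (cW c) w ^ (0 : ℤ)
      rw [zpow_zero, mul_one, mul_assoc, ← ha', inv_mul_cancel_left]

end Pool.Agent.H617R.EB
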